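import Pool.Agent.MuCraig.Main

/-!
# Craig interpolation fails for the levels of the modal mu-calculus alternation hierarchy

The definitions are in `Pool/Agent/MuCraig/Defs.lean`.  The proof is in the other files of
`Pool/Agent/MuCraig/`.

Idea of the proof.  Let letter `0` mark the positions of Eve and letters `1, ..., N` the priorities
of a parity game coded by a Kripke model.  The formula `Phi N true` in `Sigma_2` says that the letter
`N + 1` marks a winning strategy of Eve, and `Phi N false` in `Sigma_2` says that the letter `N + 2`
marks a winning strategy of Adam.  Then `Phi N true → ¬ Phi N false` is valid, and an interpolant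
would be true in all games won by Eve and false in all games won by Adam.  Every formula of level
`n` is recognised by an alternating automaton with priorities at most `2 n + 1`, and for
`N = 2 n + 2` a model which is isomorphic to the (dual) evaluation game of the automaton on the model
itself shows that no formula of level `n` has this property.
-/

namespace Pool.Agent.Results.MP_3aa27d_lc.CraigFails

open Pool.Agent.MuCraig

/-- For every `n ≥ 3` the levels `Sigma_n` and `Pi_n` of the alternation hierarchy do not have Craig
interpolation.  Moreover, for every `n` there are closed formulas `φ` in `Sigma_2` and `ψ` in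
`Pi_2` such that `φ → ψ` is valid and no formula in `Sigma_n` or `Pi_n` over the common letters of
`φ` and `ψ` is an interpolant. -/
theorem result :
    (∀ n : ℕ, 3 ≤ n → ¬ HasCraig (SigmaLevel n) ∧ ¬ HasCraig (PiLevel n)) ∧
    (∀ n : ℕ, ∃ φ ∈ SigmaLevel 2, ∃ ψ ∈ PiLevel 2, φ.FV = ∅ ∧ ψ.FV = ∅ ∧ ValidImp φ ψ ∧
      ∀ χ ∈ SigmaLevel n ∪ PiLevel n, χ.letters ⊆ φ.letters ∩ ψ.letters →
        ¬ (ValidImp φ χ ∧ ValidImp χ ψ)) := by
  refine ⟨fun n hn => ?_, main⟩
  obtain ⟨φ, hφ, ψ, hψ, _, _, hval, hno⟩ := main n
  have h1 := two_subset n hn (Or.inl hφ)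
  have h2 := two_subset n hn (Or.inr hψ)
  constructor
  · intro h
    obtain ⟨χ, hχ, hL, h3⟩ := h φ h1.1 ψ h2.1 hval
    exact hno χ (Or.inl hχ) hL h3
  · intro h
    obtain ⟨χ, hχ, hL, h3⟩ := h φ h1.2 ψ h2.2 hval
    exact hno χ (Or.inr hχ) hL h3

end Pool.Agent.Results.MP_3aa27d_lc.CraigFails
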